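import Pool.Agent.W792.GK.Stm

/-! The Chebyshev series. -/

set_option autoImplicit false
set_option linter.unusedSectionVars false

open scoped BigOperators Matrix Matrix.Norms.L2Operator

namespace Pool.Agent.W261.GK

open Pool.Agent.W792.GK

/-! ### Abstract part: a Banach algebra -/

section abstract

variable {R : Type*} [NormedRing R] [NormedAlgebra ℂ R] [CompleteSpace R] [iR : Algebra ℝ R]
  [iS : @IsScalarTower ℝ ℂ R _ _ iR.toSMul]

theorem rsm (c : ℝ) (x : R) : @HSMul.hSMul ℝ R R (@instHSMul ℝ R iR.toSMul) c x = (c : ℂ) • x := by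
  have h := iS.smul_assoc c (1 : ℂ) x
  rw [one_smul] at h
  rw [← h]
  congr 1
  simp

theorem ch_step (c : ℝ) (a : R) (n : ℕ) :
    ch c a (n + 2) = a * ch c a (n + 1) - (c : ℂ) • ch c a n := by
  rw [← rsm]
  rfl

theorem ch_comm (c : ℝ) (a b : R) (h : Commute a b) (n : ℕ) : Commute (ch c a n) b := by
  induction n using Nat.strong_induction_on with
  | _ n ih =>
    match n with
    | 0 => exact Commute.one_left b
    | 1 => exact h
    | (n + 2) =>
      rw [ch_step]
      exact (h.mul_left (ih (n + 1) (by omega))).sub_left ((ih n (by omega)).smul_left (c : ℂ))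

theorem ch_norm (s : ℝ) (hs : 0 < s) (a : R) (h1 : ‖(1 : R)‖ ≤ 1) (ha : ‖a‖ ≤ 3 * s) (n : ℕ) :
    ‖ch (s ^ 2) a n‖ ≤ (4 * s) ^ n := by
  induction n using Nat.strong_induction_on with
  | _ n ih =>
    match n with
    | 0 => simpa [ch] using h1
    | 1 =>
      change ‖a‖ ≤ (4 * s) ^ 1
      linarith
    | (n + 2) =>
      rw [ch_step]
      have i1 := ih (n + 1) (by omega)
      have i0 := ih n (by omega)
      calc ‖a * ch (s ^ 2) a (n + 1) - ((s ^ 2 : ℝ) : ℂ) • ch (s ^ 2) a n‖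
          ≤ ‖a * ch (s ^ 2) a (n + 1)‖ + ‖((s ^ 2 : ℝ) : ℂ) • ch (s ^ 2) a n‖ := norm_sub_le _ _
        _ ≤ ‖a‖ * ‖ch (s ^ 2) a (n + 1)‖ + ‖((s ^ 2 : ℝ) : ℂ)‖ * ‖ch (s ^ 2) a n‖ :=
            add_le_add (norm_mul_le _ _) (norm_smul_le _ _)
        _ ≤ (3 * s) * (4 * s) ^ (n + 1) + s ^ 2 * (4 * s) ^ n := by
            rw [Complex.norm_real, Real.norm_of_nonneg (sq_nonneg s)]
            gcongr
        _ ≤ (4 * s) ^ (n + 2) := by
            have : 0 ≤ s ^ 2 * (4 * s) ^ n := by positivity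
            have e : (4 * s) ^ (n + 2) - ((3 * s) * (4 * s) ^ (n + 1) + s ^ 2 * (4 * s) ^ n) =
              3 * (s ^ 2 * (4 * s) ^ n) := by ring
            linarith

theorem gam_le (s γ : ℝ) (hs : 0 < s) (_hγ : 0 ≤ γ) (hγ1 : γ ≤ 1 / (8 * (s + 1))) :
    4 * s * γ ≤ 1 / 2 := by
  have h : 4 * s * γ ≤ 4 * s * (1 / (8 * (s + 1))) := by gcongr
  refine h.trans ?_
  rw [mul_one_div, div_le_div_iff₀ (by positivity) (by norm_num)]
  nlinarith

/-- the series -/
theorem series (s γ : ℝ) (hs : 0 < s) (hγ : 0 ≤ γ) (hγ1 : γ ≤ 1 / (8 * (s + 1)))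
    (h1 : ‖(1 : R)‖ ≤ 1) (g a : R) (hg : ‖g‖ ≤ γ) (ha : ‖a‖ ≤ 3 * s) (hc : Commute a g) :
    ∃ S : R, ‖S‖ ≤ 8 * s ∧ g * S = S * g ∧ (a + ((s ^ 2 : ℝ) : ℂ) • g) * (1 + g * S) = -S ∧
      HasSum (fun m : ℕ => (-g) ^ m * ch (s ^ 2) a (m + 1)) (-S) := by
  have hγ2 : 4 * s * γ ≤ 1 / 2 := gam_le s γ hs hγ hγ1
  have hpow : ∀ m : ℕ, ‖(-g) ^ m‖ ≤ γ ^ m := by
    intro m
    induction m with
    | zero => simpa using h1
    | succ m ih =>
      rw [pow_succ, pow_succ]
      refine (norm_mul_le _ _).trans ?_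
      rw [norm_neg]
      exact mul_le_mul ih hg (norm_nonneg _) (by positivity)
  set P : ℕ → R := ch (s ^ 2) a with hP
  have hPn : ∀ n, ‖P n‖ ≤ (4 * s) ^ n := ch_norm s hs a h1 ha
  have hPg : ∀ n, Commute (P n) g := fun n => ch_comm _ _ _ hc n
  -- summability of the basic families
  have hbd : ∀ m : ℕ, ‖(-g) ^ m * P (m + 1)‖ ≤ 4 * s * (1 / 2) ^ m := by
    intro m
    calc ‖(-g) ^ m * P (m + 1)‖ ≤ γ ^ m * (4 * s) ^ (m + 1) :=
          (norm_mul_le _ _).trans (mul_le_mul (hpow m) (hPn _) (norm_nonneg _) (by positivity))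
      _ = 4 * s * (4 * s * γ) ^ m := by
          rw [mul_pow (4 * s) γ, pow_succ]
          ring
      _ ≤ 4 * s * (1 / 2) ^ m := by gcongr
  have hgs : HasSum (fun m : ℕ => 4 * s * (1 / 2 : ℝ) ^ m) (8 * s) := by
    have := hasSum_geometric_two.mul_left (4 * s)
    have e : 8 * s = 4 * s * 2 := by ring
    rw [e]
    exact this
  have hsum : Summable (fun m : ℕ => (-g) ^ m * P (m + 1)) :=
    Summable.of_norm_bounded hgs.summable hbd
  obtain ⟨T, hT⟩ := hsum
  have hTn : ‖T‖ ≤ 8 * s := by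
    have := tsum_of_norm_bounded hgs hbd
    rwa [hT.tsum_eq] at this
  -- the second series `U = Σ (-g)^n P_n`
  have hU : HasSum (fun m : ℕ => (-g) ^ m * P m) (1 - g * T) := by
    have e1 : HasSum (fun m : ℕ => (-g) ^ (m + 1) * P (m + 1)) ((-g) * T) := by
      have := hT.mul_left (-g)
      have e : (fun m : ℕ => (-g) ^ (m + 1) * P (m + 1)) =
          fun m : ℕ => (-g) * ((-g) ^ m * P (m + 1)) := by
        funext m
        rw [pow_succ', mul_assoc]
      rw [e]
      exact this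
    have e2 := (hasSum_nat_add_iff (f := fun m : ℕ => (-g) ^ m * P m) 1).1 e1
    have e3 : (-g) * T + ∑ i ∈ Finset.range 1, (-g) ^ i * P i = 1 - g * T := by
      have : P 0 = 1 := rfl
      rw [Finset.sum_range_one, this, pow_zero, one_mul, neg_mul]
      abel
    rwa [e3] at e2
  have hgT : g * T = T * g := by
    have h2 := hT.mul_left g
    have h3 := hT.mul_right g
    have : (fun m : ℕ => g * ((-g) ^ m * P (m + 1))) =
        fun m : ℕ => ((-g) ^ m * P (m + 1)) * g := by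
      funext m
      have k1 : Commute ((-g) ^ m) g := ((Commute.refl g).neg_left).pow_left m
      have k2 := (k1.mul_left (hPg (m + 1))).eq
      exact k2.symm
    rw [this] at h2
    exact h2.unique h3
  refine ⟨-T, ?_, ?_, ?_, ?_⟩
  · rwa [norm_neg]
  · rw [mul_neg, neg_mul, hgT]
  · rw [mul_neg, neg_neg, ← sub_eq_add_neg]
    set c : ℂ := ((s ^ 2 : ℝ) : ℂ) with hcdef
    have hV : HasSum (fun m : ℕ => c • (g * ((-g) ^ m * P m)))
        (c • (g * (1 - g * T))) := (hU.mul_left g).const_smul _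
    have hB : HasSum (fun m : ℕ => a * ((-g) ^ m * P m)) (a * (1 - g * T)) := hU.mul_left _
    have hB2 : HasSum (fun m : ℕ => a * ((-g) ^ m * P m)) (T - c • (g * (1 - g * T))) := by
      have e1 : HasSum (fun m : ℕ => a * ((-g) ^ (m + 1) * P (m + 1)))
          ((T - P 1) - c • (g * (1 - g * T))) := by
        have f1 : HasSum (fun m : ℕ => (-g) ^ (m + 1) * P (m + 2)) (T - P 1) := by
          have := (hasSum_nat_add_iff' (f := fun m : ℕ => (-g) ^ m * P (m + 1)) 1).2 hT
          simpa using this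
        have f2 := f1.sub hV
        have e : (fun m : ℕ => a * ((-g) ^ (m + 1) * P (m + 1))) =
            fun m : ℕ => (-g) ^ (m + 1) * P (m + 2) - c • (g * ((-g) ^ m * P m)) := by
          funext m
          have k1 : P (m + 2) = a * P (m + 1) - c • P m := ch_step _ _ _
          have k2 : Commute a ((-g) ^ (m + 1)) := (hc.neg_right).pow_right _
          have k3 : (-g) ^ (m + 1) * (c • P m) = - (c • (g * ((-g) ^ m * P m))) := by
            rw [mul_smul_comm, pow_succ' (-g) m, mul_assoc, neg_mul, smul_neg]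
          rw [← mul_assoc, k2.eq, k1, mul_sub, mul_assoc, k3]
          abel
        rw [e]
        exact f2
      have e2 := (hasSum_nat_add_iff (f := fun m : ℕ => a * ((-g) ^ m * P m)) 1).1 e1
      have e3 : (T - P 1) - c • (g * (1 - g * T)) +
          ∑ i ∈ Finset.range 1, a * ((-g) ^ i * P i) = T - c • (g * (1 - g * T)) := by
        have p0 : P 0 = 1 := rfl
        have p1 : P 1 = a := rfl
        rw [Finset.sum_range_one, p0, p1, pow_zero, one_mul, mul_one]
        abel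
      rwa [e3] at e2
    have h5 := hB.unique hB2
    rw [add_mul, h5, smul_mul_assoc]
    abel
  · rwa [neg_neg]

end abstract

/-! ### The operator norm of matrices -/

section norms

variable {n : Type} [Fintype n] [DecidableEq n]

theorem clm_sq (A : Matrix n n ℂ) (x : EuclideanSpace ℂ n) :
    ‖Matrix.toEuclideanCLM (n := n) (𝕜 := ℂ) A x‖ ^ 2 = ∑ i, ‖(A.mulVec x.ofLp) i‖ ^ 2 := by
  rw [EuclideanSpace.norm_sq_eq]
  refine Finset.sum_congr rfl fun i _ => ?_
  rw [Matrix.ofLp_toEuclideanCLM]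

theorem norm_of_opB (A : Matrix n n ℂ) (c : ℝ) (hc : 0 ≤ c) (h : OpB A c) : ‖A‖ ≤ c := by
  rw [Matrix.cstar_norm_def]
  refine ContinuousLinearMap.opNorm_le_bound _ hc fun x => ?_
  refine le_of_sq_le_sq ?_ (by positivity)
  rw [clm_sq, mul_pow, EuclideanSpace.norm_sq_eq]
  exact h _

theorem opB_of_norm (A : Matrix n n ℂ) (c : ℝ) (h : ‖A‖ ≤ c) : OpB A c := by
  intro u
  have hc : 0 ≤ c := (norm_nonneg _).trans h
  have h1 := clm_sq A (WithLp.toLp 2 u)
  have h2 := (Matrix.toEuclideanCLM (n := n) (𝕜 := ℂ) A).le_opNorm (WithLp.toLp 2 u)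
  rw [← Matrix.cstar_norm_def] at h2
  have h3 : ‖Matrix.toEuclideanCLM (n := n) (𝕜 := ℂ) A (WithLp.toLp 2 u)‖ ^ 2 ≤
      (c * ‖(WithLp.toLp 2 u : EuclideanSpace ℂ n)‖) ^ 2 := by
    gcongr
    exact h2.trans (by gcongr)
  rw [h1, mul_pow, EuclideanSpace.norm_sq_eq] at h3
  exact h3

theorem entry_le (A : Matrix n n ℂ) (i j : n) : ‖A i j‖ ≤ ‖A‖ := by
  have h := opB_of_norm A ‖A‖ le_rfl (Pi.single j 1)
  have h1 : ∑ k, ‖(Pi.single j (1 : ℂ) : n → ℂ) k‖ ^ 2 = 1 := by
    rw [Finset.sum_eq_single j]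
    · simp
    · intro b _ hb
      simp [hb]
    · intro hj
      exact absurd (Finset.mem_univ j) hj
  rw [h1, mul_one] at h
  have h2 : ‖A i j‖ ^ 2 ≤ ∑ i, ‖(A.mulVec (Pi.single j 1)) i‖ ^ 2 := by
    have := Finset.single_le_sum (f := fun i => ‖(A.mulVec (Pi.single j 1)) i‖ ^ 2)
      (fun _ _ => by positivity) (Finset.mem_univ i)
    simpa using this
  exact le_of_sq_le_sq (h2.trans h) (norm_nonneg _)

theorem one_le : ‖(1 : Matrix n n ℂ)‖ ≤ 1 := by
  refine norm_of_opB _ 1 zero_le_one fun u => ?_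
  simp [Matrix.one_mulVec]

end norms

section kron

variable {Q J : Type} [Fintype Q] [DecidableEq Q] [Fintype J] [DecidableEq J]

theorem kron_left (g : Matrix Q Q ℂ) (c : ℝ) (h : OpB g c) :
    OpB (Matrix.kronecker g (1 : Matrix J J ℂ)) c := by
  intro u
  have h1 : ∀ x i, ((Matrix.kronecker g (1 : Matrix J J ℂ)).mulVec u) (x, i) =
      (g.mulVec fun y => u (y, i)) x := by
    intro x i
    unfold Matrix.mulVec dotProduct
    rw [Fintype.sum_prod_type]
    refine Finset.sum_congr rfl fun y _ => ?_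
    simp [Matrix.kronecker, Matrix.kroneckerMap_apply, Matrix.one_apply]
  rw [Fintype.sum_prod_type_right, Fintype.sum_prod_type_right, Finset.mul_sum]
  refine Finset.sum_le_sum fun i _ => ?_
  simp only [h1]
  exact h _

theorem kron_right (A : Matrix J J ℂ) (c : ℝ) (h : OpB A c) :
    OpB (Matrix.kronecker (1 : Matrix Q Q ℂ) A) c := by
  intro u
  have h1 : ∀ x i, ((Matrix.kronecker (1 : Matrix Q Q ℂ) A).mulVec u) (x, i) =
      (A.mulVec fun j => u (x, j)) i := by
    intro x i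
    unfold Matrix.mulVec dotProduct
    rw [Fintype.sum_prod_type_right]
    refine Finset.sum_congr rfl fun y _ => ?_
    simp [Matrix.kronecker, Matrix.kroneckerMap_apply, Matrix.one_apply]
  rw [Fintype.sum_prod_type, Fintype.sum_prod_type, Finset.mul_sum]
  refine Finset.sum_le_sum fun x _ => ?_
  simp only [h1]
  exact h _

theorem kron_mul (g g' : Matrix Q Q ℂ) (A A' : Matrix J J ℂ) :
    Matrix.kronecker g A * Matrix.kronecker g' A' = Matrix.kronecker (g * g') (A * A') :=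
  (Matrix.mul_kronecker_mul g g' A A').symm

theorem kron_ch (c : ℝ) (A : Matrix J J ℂ) (m : ℕ) :
    ch c (Matrix.kronecker (1 : Matrix Q Q ℂ) A) m =
      Matrix.kronecker (1 : Matrix Q Q ℂ) (ch c A m) := by
  induction m using Nat.strong_induction_on with
  | _ m ih =>
    match m with
    | 0 =>
      change (1 : Matrix (Q × J) (Q × J) ℂ) = Matrix.kronecker 1 1
      exact Matrix.one_kronecker_one.symm
    | 1 => rfl
    | (m + 2) =>
      have e : ch c A (m + 2) = A * ch c A (m + 1) - c • ch c A m := rfl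
      have e' : ch c (Matrix.kronecker (1 : Matrix Q Q ℂ) A) (m + 2) =
        Matrix.kronecker (1 : Matrix Q Q ℂ) A * ch c (Matrix.kronecker (1 : Matrix Q Q ℂ) A) (m + 1)
          - c • ch c (Matrix.kronecker (1 : Matrix Q Q ℂ) A) m := rfl
      rw [e', e, ih (m + 1) (by omega), ih m (by omega), kron_mul, one_mul]
      ext ⟨x, i⟩ ⟨y, j⟩
      simp only [Matrix.kronecker, Matrix.kroneckerMap_apply, Matrix.sub_apply, Matrix.smul_apply]
      rw [mul_sub, mul_smul_comm]

theorem kron_pow (g : Matrix Q Q ℂ) (m : ℕ) :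
    (-(Matrix.kronecker g (1 : Matrix J J ℂ))) ^ m = Matrix.kronecker ((-g) ^ m) 1 := by
  have h0 : -(Matrix.kronecker g (1 : Matrix J J ℂ)) = Matrix.kronecker (-g) 1 := by
    ext ⟨x, i⟩ ⟨y, j⟩
    simp [Matrix.kronecker, Matrix.kroneckerMap_apply]
  rw [h0]
  induction m with
  | zero => exact Matrix.one_kronecker_one.symm
  | succ m ih => rw [pow_succ, ih, kron_mul, pow_succ, one_mul]

end kron

theorem main : S_SER := by
  intro Q J _ _ _ _ s γ hs hγ hγ1 g hg A hA
  have hc : Commute (Matrix.kronecker (1 : Matrix Q Q ℂ) A)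
      (Matrix.kronecker g (1 : Matrix J J ℂ)) := by
    unfold Commute SemiconjBy
    rw [kron_mul, kron_mul, one_mul, mul_one, one_mul, mul_one]
  obtain ⟨S, hS1, hS2, hS3, hS4⟩ := series s γ hs hγ hγ1 one_le
    (Matrix.kronecker g (1 : Matrix J J ℂ)) (Matrix.kronecker (1 : Matrix Q Q ℂ) A)
    (norm_of_opB _ γ hγ (kron_left g γ hg))
    (norm_of_opB _ (3 * s) (by positivity) (kron_right A (3 * s) hA)) hc
  refine ⟨S, opB_of_norm _ _ hS1, hS2, hS3, ?_⟩
  intro δ n₀ hδ hch x i y j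
  have hgn : ‖g‖ ≤ γ := norm_of_opB _ γ hγ hg
  have hpow : ∀ m : ℕ, ‖(-g) ^ m‖ ≤ γ ^ m := by
    intro m
    induction m with
    | zero => simpa using one_le
    | succ m ih =>
      rw [pow_succ, pow_succ]
      refine (norm_mul_le _ _).trans ?_
      rw [norm_neg]
      exact mul_le_mul ih hgn (norm_nonneg _) (by positivity)
  have hAn : ‖A‖ ≤ 3 * s := norm_of_opB _ _ (by positivity) hA
  have hPn := ch_norm s hs A one_le hAn
  have hγ2 := gam_le s γ hs hγ hγ1
  have hγ3 : γ ≤ 1 / 2 := by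
    refine hγ1.trans ?_
    rw [div_le_div_iff₀ (by positivity) (by norm_num)]
    linarith
  -- the entry
  have hent : HasSum (fun m : ℕ => ((-g) ^ m) x y * ch (s ^ 2) A (m + 1) i j)
      (-(S (x, i) (y, j))) := by
    let L : Matrix (Q × J) (Q × J) ℂ →L[ℂ] ℂ :=
      (Matrix.entryLinearMap ℂ ℂ (x, i) (y, j)).mkContinuous 1
        (fun M => by
          rw [one_mul]
          exact entry_le M (x, i) (y, j))
    have h := L.hasSum hS4
    have e : (fun m : ℕ => ((-g) ^ m) x y * ch (s ^ 2) A (m + 1) i j) =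
        fun m : ℕ => L ((-(Matrix.kronecker g (1 : Matrix J J ℂ))) ^ m *
          ch (s ^ 2) (Matrix.kronecker (1 : Matrix Q Q ℂ) A) (m + 1)) := by
      funext m
      rw [kron_ch, kron_pow, kron_mul, mul_one, one_mul]
      rfl
    rw [e]
    exact h
  have hbd : ∀ m : ℕ, ‖((-g) ^ m) x y * ch (s ^ 2) A (m + 1) i j‖ ≤
      δ * (1 / 2) ^ m + (if m < n₀ then 0 else 4 * s * (1 / 2) ^ m) := by
    intro m
    rw [norm_mul]
    have h1 : ‖((-g) ^ m) x y‖ ≤ γ ^ m := (entry_le _ _ _).trans (hpow m)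
    split_ifs with hm
    · have h2 : ‖ch (s ^ 2) A (m + 1) i j‖ ≤ δ := hch (m + 1) (by omega) (by omega) i j
      calc _ ≤ γ ^ m * δ := mul_le_mul h1 h2 (norm_nonneg _) (by positivity)
        _ ≤ (1 / 2) ^ m * δ := by gcongr
        _ = _ := by ring
    · have h2 : ‖ch (s ^ 2) A (m + 1) i j‖ ≤ (4 * s) ^ (m + 1) := (entry_le _ _ _).trans (hPn _)
      calc _ ≤ γ ^ m * (4 * s) ^ (m + 1) := mul_le_mul h1 h2 (norm_nonneg _) (by positivity)
        _ = 4 * s * (4 * s * γ) ^ m := by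
            rw [mul_pow (4 * s) γ, pow_succ]
            ring
        _ ≤ 4 * s * (1 / 2) ^ m := by gcongr
        _ ≤ _ := by
            have : 0 ≤ δ * (1 / 2) ^ m := by positivity
            linarith
  have hs1 : HasSum (fun m : ℕ => δ * (1 / 2 : ℝ) ^ m) (2 * δ) := by
    have := hasSum_geometric_two.mul_left δ
    rwa [mul_comm δ 2] at this
  have hs2 : HasSum (fun m : ℕ => if m < n₀ then (0 : ℝ) else 4 * s * (1 / 2) ^ m)
      (8 * s * (1 / 2) ^ n₀) := by
    have h1 : HasSum (fun m : ℕ => (fun k : ℕ => if k < n₀ then (0 : ℝ)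
        else 4 * s * (1 / 2) ^ k) (m + n₀)) (8 * s * (1 / 2) ^ n₀) := by
      have h2 := hasSum_geometric_two.mul_left (4 * s * (1 / 2) ^ n₀)
      have e : (fun m : ℕ => (fun k : ℕ => if k < n₀ then (0 : ℝ)
        else 4 * s * (1 / 2) ^ k) (m + n₀)) = fun m : ℕ => 4 * s * (1 / 2) ^ n₀ * (1 / 2) ^ m := by
        funext m
        simp only [not_lt.2 (Nat.le_add_left n₀ m), if_false]
        rw [pow_add]
        ring
      rw [e]
      have e' : 8 * s * (1 / 2) ^ n₀ = 4 * s * (1 / 2) ^ n₀ * 2 := by ring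
      rw [e']
      exact h2
    have h3 := (hasSum_nat_add_iff (f := fun k : ℕ => if k < n₀ then (0 : ℝ)
        else 4 * s * (1 / 2) ^ k) n₀).1 h1
    have h4 : ∑ k ∈ Finset.range n₀, (if k < n₀ then (0 : ℝ) else 4 * s * (1 / 2) ^ k) = 0 :=
      Finset.sum_eq_zero fun k hk => if_pos (Finset.mem_range.1 hk)
    rwa [h4, add_zero] at h3
  have h := tsum_of_norm_bounded (hs1.add hs2) hbd
  rw [hent.tsum_eq, norm_neg] at h
  exact h

end Pool.Agent.W261.GK
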